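import Mathlib
import Pool.Agent.R859.QD.Main

/-!
# Sums of products of q-Delannoy numbers

For all positive integers `m, n, r` the rational functions `A`, `B`, `C` are Laurent polynomials
in `q` with nonnegative integer coefficients.
-/

set_option autoImplicit false

open Finset

namespace Pool.Agent.Results.MP_870110_co.DelannoySums

noncomputable section

/-- the indeterminate of `ℚ(q)` -/
def q : RatFunc ℚ := RatFunc.X

/-- the Gaussian binomial coefficient in the variable `t` -/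
def qbinom (t : RatFunc ℚ) (N k : ℕ) : RatFunc ℚ :=
  if k ≤ N then ∏ i ∈ Icc 1 k, (1 - t ^ (N - k + i)) / (1 - t ^ i) else 0

/-- the `q`-Delannoy number `D_t(m, n)` -/
def D (t : RatFunc ℚ) (m n : ℕ) : RatFunc ℚ :=
  ∑ k ∈ range (n + 1), t ^ (k * (k - 1) / 2) * qbinom t n k * qbinom t (n + m - k) n

/-- `P_k = D_q(m, k) D_{1/q}(m, k)` -/
def P (m k : ℕ) : RatFunc ℚ := D q m k * D q⁻¹ m k

/-- the rational function `A` -/
def A (m n : ℕ) : RatFunc ℚ :=
  (1 - q ^ m) * (1 - q ^ (m + 1)) / ((1 - q ^ 2) * (1 - q ^ n) ^ 2) *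
    ∑ k ∈ range n, (1 - q ^ (2 * k + 1)) * q ^ (-(k : ℤ)) * P m k

/-- the rational function `B` -/
def B (m n r : ℕ) : RatFunc ℚ :=
  1 / (1 - q ^ n) * ∑ k ∈ range n, (1 - q ^ (2 * k + 1)) * q ^ (-(k : ℤ)) * P m k ^ r

/-- the rational function `C` -/
def C (m n r : ℕ) : RatFunc ℚ :=
  1 / (1 - q ^ n) * ∑ k ∈ range n, (-1) ^ (n - 1 - k) * (1 - q ^ (2 * k + 1)) *
    q ^ (k * (k - 1) / 2) * P m k ^ r

/-- Laurent polynomials with nonnegative integer coefficients -/
def IsLaurentNonneg (f : RatFunc ℚ) : Prop :=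
  ∃ (N : ℕ) (p : Polynomial ℕ), q ^ N * f =
    algebraMap (Polynomial ℚ) (RatFunc ℚ) (p.map (Nat.castRingHom ℚ))

theorem one_sub_ne {n : ℕ} (hn : n ≠ 0) : (1 - q ^ n : RatFunc ℚ) ≠ 0 :=
  Pool.Agent.R859.QD.one_sub_pow_ne hn

theorem q_ne : q ≠ 0 := Pool.Agent.R859.QB.q_ne

theorem one_sub_inv_ne {n : ℕ} (hn : n ≠ 0) : (1 - q⁻¹ ^ n : RatFunc ℚ) ≠ 0 := by
  intro h
  apply one_sub_ne hn
  have h1 := pow_ne_zero n q_ne
  rw [inv_pow] at h
  field_simp at h
  linear_combination -h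

theorem prod_eq (b : ℕ) : ∀ k : ℕ, (∏ i ∈ Icc 1 k, (1 - q ^ (b + i)) / (1 - q ^ i)) =
    Pool.Agent.R859.QB.qb (b + k) k := by
  intro k
  induction k with
  | zero => rw [Pool.Agent.R859.QB.qb_zero]; rfl
  | succ k ih =>
    rw [Finset.prod_Icc_succ_top (by omega), ih, Pool.Agent.R859.QB.qb_eq (by omega),
      Pool.Agent.R859.QB.qb_eq (by omega)]
    have e1 : b + k - k = b := by omega
    have e2 : b + (k + 1) - (k + 1) = b := by omega
    have e3 : b + (k + 1) = (b + k) + 1 := by ring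
    have h1 := Pool.Agent.R859.QB.one_sub_q_mul (b + k + 1)
    have h2 := Pool.Agent.R859.QB.one_sub_q_mul (k + 1)
    have h1' : (1 - q ^ (b + k + 1) : RatFunc ℚ) =
      (1 - Pool.Agent.R859.QB.q) * Pool.Agent.R859.QB.qn (b + k + 1) := h1.symm
    have h2' : (1 - q ^ (k + 1) : RatFunc ℚ) =
      (1 - Pool.Agent.R859.QB.q) * Pool.Agent.R859.QB.qn (k + 1) := h2.symm
    rw [e1, e2, e3, h1', h2', Pool.Agent.R859.QB.qf_succ, Pool.Agent.R859.QB.qf_succ]
    have f1 := Pool.Agent.R859.QB.qf_ne b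
    have f2 := Pool.Agent.R859.QB.qf_ne k
    have f3 := Pool.Agent.R859.QB.qn_succ_ne k
    have f4 : (1 - Pool.Agent.R859.QB.q) ≠ 0 := Pool.Agent.R859.QD.one_sub_q_ne
    field_simp

theorem qbinom_eq (N k : ℕ) : qbinom q N k = Pool.Agent.R859.QB.qb N k := by
  rw [qbinom]
  split_ifs with h
  · rw [prod_eq]
    congr 1
    omega
  · rw [Pool.Agent.R859.QB.qb_eq_zero (by omega)]

theorem qbinom_inv (N k : ℕ) : qbinom q⁻¹ N k = q⁻¹ ^ ((N - k) * k) *
    Pool.Agent.R859.QB.qb N k := by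
  rw [← qbinom_eq, qbinom, qbinom]
  split_ifs with h
  · have h1 : ∀ i ∈ Icc 1 k, (1 - q⁻¹ ^ (N - k + i)) / (1 - q⁻¹ ^ i) =
        q⁻¹ ^ (N - k) * ((1 - q ^ (N - k + i)) / (1 - q ^ i)) := by
      intro i hi
      have hi1 := (Finset.mem_Icc.1 hi).1
      have h2 := one_sub_ne (n := i) (by omega)
      have h3 := one_sub_inv_ne (n := i) (by omega)
      have h4 := q_ne
      rw [← mul_div_assoc, div_eq_div_iff h3 h2, pow_add, pow_add]
      have h5 : q⁻¹ ^ i * q ^ i = 1 := by rw [← mul_pow, inv_mul_cancel₀ h4, one_pow]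
      have h6 : q⁻¹ ^ (N - k) * q ^ (N - k) = 1 := by
        rw [← mul_pow, inv_mul_cancel₀ h4, one_pow]
      linear_combination (q⁻¹ ^ (N - k) - 1) * h5 + (q ^ i - q ^ i * q⁻¹ ^ i) * h6
    rw [Finset.prod_congr rfl h1, Finset.prod_mul_distrib, Finset.prod_const, Nat.card_Icc,
      Nat.add_sub_cancel, ← pow_mul]
  · ring

theorem range_eq (F : ℕ → RatFunc ℚ) (k m : ℕ) (h1 : ∀ i, k < i → F i = 0)
    (h2 : ∀ i, m < i → F i = 0) : ∑ i ∈ range (k + 1), F i = ∑ i ∈ range (m + 1), F i := by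
  have h3 : ∑ i ∈ range (k + 1), F i = ∑ i ∈ range (k + m + 1), F i := by
    refine Finset.sum_subset ?_ ?_
    · intro x hx
      rw [Finset.mem_range] at hx ⊢
      omega
    · intro x _ hx
      rw [Finset.mem_range] at hx
      exact h1 x (by omega)
  have h4 : ∑ i ∈ range (m + 1), F i = ∑ i ∈ range (k + m + 1), F i := by
    refine Finset.sum_subset ?_ ?_
    · intro x hx
      rw [Finset.mem_range] at hx ⊢
      omega
    · intro x _ hx
      rw [Finset.mem_range] at hx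
      exact h2 x (by omega)
  rw [h3, h4]

theorem tri2 (i : ℕ) : 2 * (i * (i - 1) / 2) + i = i * i := by
  have h1 : i * (i - 1) / 2 * 2 = i * (i - 1) := by
    rw [← Finset.sum_range_id, ← Finset.sum_range_id_mul_two]
  cases i with
  | zero => rfl
  | succ i =>
    rw [Nat.add_sub_cancel] at h1 ⊢
    nlinarith [h1]

theorem D_eq (m k : ℕ) : D q m k = Pool.Agent.R859.QD.yy k m := by
  rw [D, Pool.Agent.R859.QD.yy, Pool.Agent.R859.QD.cv,
    Finset.Nat.sum_antidiagonal_eq_sum_range_succ_mk]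
  rw [range_eq _ k m]
  · refine Finset.sum_congr rfl fun i hi => ?_
    have hi' := Finset.mem_range.1 hi
    dsimp only
    rw [qbinom_eq, qbinom_eq, Pool.Agent.R859.QD.ee, Pool.Agent.R859.QD.ccf]
    have : k + m - i = k + (m - i) := by omega
    rw [this]
    rfl
  · intro i hi
    rw [qbinom_eq, Pool.Agent.R859.QB.qb_eq_zero hi]; ring
  · intro i hi
    rcases Nat.eq_zero_or_pos k with h | h
    · subst h
      rw [qbinom_eq, Pool.Agent.R859.QB.qb_eq_zero (show 0 < i by omega)]; ring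
    · rw [qbinom_eq (k + m - i) k,
        Pool.Agent.R859.QB.qb_eq_zero (show k + m - i < k by omega)]; ring

theorem D_inv (m k : ℕ) : D q⁻¹ m k = q ^ (-((m * k : ℕ) : ℤ)) *
    Pool.Agent.R859.QD.zz k m := by
  rw [D, Pool.Agent.R859.QD.zz, Pool.Agent.R859.QD.cv,
    Finset.Nat.sum_antidiagonal_eq_sum_range_succ_mk]
  rw [range_eq _ k m, Finset.mul_sum]
  · refine Finset.sum_congr rfl fun i hi => ?_
    have hi' := Finset.mem_range.1 hi
    dsimp only
    rw [qbinom_inv, qbinom_inv, Pool.Agent.R859.QD.ee', Pool.Agent.R859.QD.ee,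
      Pool.Agent.R859.QD.ccf]
    have e1 : k + m - i = k + (m - i) := by omega
    rw [e1]
    rcases Nat.lt_or_ge k i with h | h
    · rw [Pool.Agent.R859.QB.qb_eq_zero h]; ring
    · have e2 : k + (m - i) - k = m - i := by omega
      rw [e2]
      have key : q⁻¹ ^ (i * (i - 1) / 2) * q⁻¹ ^ ((k - i) * i) * q⁻¹ ^ ((m - i) * k) =
          q ^ (-((m * k : ℕ) : ℤ)) * (q ^ i * q ^ (i * (i - 1) / 2)) := by
        have h3 := tri2 i
        set T := i * (i - 1) / 2 with hT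
        obtain ⟨a, rfl⟩ := Nat.exists_eq_add_of_le h
        obtain ⟨b, hb⟩ := Nat.exists_eq_add_of_le (show i ≤ m by omega)
        subst hb
        have e3 : i + a - i = a := by omega
        have e4 : i + b - i = b := by omega
        rw [e3, e4, inv_pow, inv_pow, inv_pow, ← mul_inv, ← mul_inv, zpow_neg, zpow_natCast]
        have h5 := q_ne
        rw [inv_eq_iff_eq_inv, mul_inv, inv_inv, ← div_eq_mul_inv, eq_div_iff
          (mul_ne_zero (pow_ne_zero _ h5) (pow_ne_zero _ h5)), ← pow_add, ← pow_add, ← pow_add,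
          ← pow_add]
        congr 1
        nlinarith [h3]
      have hq : (Pool.Agent.R859.QB.q : RatFunc ℚ) = q := rfl
      rw [hq]
      linear_combination (Pool.Agent.R859.QB.qb k i * Pool.Agent.R859.QB.qb (k + (m - i)) k) * key
  · intro i hi
    rw [qbinom_inv, Pool.Agent.R859.QB.qb_eq_zero hi]; ring
  · intro i hi
    rcases Nat.eq_zero_or_pos k with h | h
    · subst h
      rw [qbinom_inv, Pool.Agent.R859.QB.qb_eq_zero (show 0 < i by omega)]; ring
    · rw [qbinom_inv (k + m - i) k,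
        Pool.Agent.R859.QB.qb_eq_zero (show k + m - i < k by omega)]; ring

theorem P_eq (m k : ℕ) : P m k = Pool.Agent.R859.QD.Pk m k := by
  rw [P, D_eq, D_inv, Pool.Agent.R859.QD.Pk]
  have hq : (Pool.Agent.R859.QB.q : RatFunc ℚ) = q := rfl
  rw [hq]
  ring

theorem one_sub_eq (n : ℕ) : (1 - q ^ n : RatFunc ℚ) = (1 - q) * Pool.Agent.R859.QB.qn n :=
  (Pool.Agent.R859.QB.one_sub_q_mul n).symm

/-- For all positive integers `m, n, r`, each of `A`, `B`, `C` is a Laurent polynomial in `q`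
with nonnegative integer coefficients. -/
theorem result (m n r : ℕ) (_hm : 1 ≤ m) (hn : 1 ≤ n) (_hr : 1 ≤ r) :
    IsLaurentNonneg (A m n) ∧ IsLaurentNonneg (B m n r) ∧ IsLaurentNonneg (C m n r) := by
  have h1 : (1 - q : RatFunc ℚ) ≠ 0 := Pool.Agent.R859.QD.one_sub_q_ne
  have hn0 : Pool.Agent.R859.QB.qn n ≠ 0 := Pool.Agent.R859.QB.qn_ne_zero (by omega)
  have h20 : Pool.Agent.R859.QB.qn 2 ≠ 0 := Pool.Agent.R859.QB.qn_ne_zero (by omega)
  have hq : (Pool.Agent.R859.QB.q : RatFunc ℚ) = q := rfl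
  refine ⟨?_, ?_, ?_⟩
  · have h2 : A m n = Pool.Agent.R859.QB.qn m * Pool.Agent.R859.QB.qn (m + 1) /
        (Pool.Agent.R859.QB.qn 2 * Pool.Agent.R859.QB.qn n ^ 2) *
      ∑ k ∈ range n, Pool.Agent.R859.QB.qn (2 * k + 1) * Pool.Agent.R859.QB.q ^ (-(k : ℤ)) *
        Pool.Agent.R859.QD.Pk m k := by
      have h3 : ∑ k ∈ range n, (1 - q ^ (2 * k + 1)) * q ^ (-(k : ℤ)) * P m k =
          (1 - q) * ∑ k ∈ range n, Pool.Agent.R859.QB.qn (2 * k + 1) * q ^ (-(k : ℤ)) *
            Pool.Agent.R859.QD.Pk m k := by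
        rw [Finset.mul_sum]
        refine Finset.sum_congr rfl fun k _ => ?_
        rw [P_eq, one_sub_eq]; ring
      rw [A, h3, one_sub_eq m, one_sub_eq (m + 1), one_sub_eq 2, one_sub_eq n, hq]
      field_simp
    rw [h2]
    exact Pool.Agent.R859.QD.A_NN m n hn
  · have h2 : B m n r = (∑ k ∈ range n, Pool.Agent.R859.QB.qn (2 * k + 1) *
        Pool.Agent.R859.QB.q ^ (-(k : ℤ)) * Pool.Agent.R859.QD.Pk m k ^ r) /
        Pool.Agent.R859.QB.qn n := by
      have h3 : ∑ k ∈ range n, (1 - q ^ (2 * k + 1)) * q ^ (-(k : ℤ)) * P m k ^ r =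
          (1 - q) * ∑ k ∈ range n, Pool.Agent.R859.QB.qn (2 * k + 1) * q ^ (-(k : ℤ)) *
            Pool.Agent.R859.QD.Pk m k ^ r := by
        rw [Finset.mul_sum]
        refine Finset.sum_congr rfl fun k _ => ?_
        rw [P_eq, one_sub_eq]; ring
      rw [B, h3, one_sub_eq n, hq]
      field_simp
    rw [h2]
    exact Pool.Agent.R859.QD.B_NN m n r hn
  · have h2 : C m n r = (∑ k ∈ range n, (-1) ^ (n - 1 - k) * (Pool.Agent.R859.QB.qn (2 * k + 1) *
        Pool.Agent.R859.QB.q ^ (k * (k - 1) / 2) * Pool.Agent.R859.QD.Pk m k ^ r)) /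
        Pool.Agent.R859.QB.qn n := by
      have h3 : ∑ k ∈ range n, (-1) ^ (n - 1 - k) * (1 - q ^ (2 * k + 1)) *
          q ^ (k * (k - 1) / 2) * P m k ^ r =
          (1 - q) * ∑ k ∈ range n, (-1) ^ (n - 1 - k) * (Pool.Agent.R859.QB.qn (2 * k + 1) *
            q ^ (k * (k - 1) / 2) * Pool.Agent.R859.QD.Pk m k ^ r) := by
        rw [Finset.mul_sum]
        refine Finset.sum_congr rfl fun k _ => ?_
        rw [P_eq, one_sub_eq]; ring
      rw [C, h3, one_sub_eq n, hq]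
      field_simp
    rw [h2]
    exact Pool.Agent.R859.QD.C_NN m n r hn

end

end Pool.Agent.Results.MP_870110_co.DelannoySums
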